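import Pool.Agent.Lib.MP_a47f92_an.Lit.Span

set_option autoImplicit false
set_option linter.unusedSectionVars false

/-! A closed measure on frames vanishes on all exact forms. -/

namespace Pool.Agent.Lib.MP_a47f92_an

open Complex Function Finset Filter Topology MeasureTheory
open scoped ComplexConjugate ContDiff

variable {n p m : ℕ} {z : E n} {ψ : E n → Al n (Fin m)}

theorem cx_alt (L : E n →L[ℝ] Al n (Fin m)) (t : Fin (m + 1) → Bool) (w : Fin (m + 1) → E n) :
    cx (ContinuousAlternatingMap.alternatizeUncurryFin L) t w = ∑ i : Fin (m + 1),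
      (-1) ^ i.val * ∑ b, co (t i) b * cx (L (tw b (w i))) (fun j => t (i.succAbove j))
        fun j => w (i.succAbove j) := by
  simp only [cx, ContinuousAlternatingMap.alternatizeUncurryFin_apply, ofReal_sum, mul_sum]
  rw [sum_comm]
  refine sum_congr rfl fun i _ => ?_
  rw [← (Fin.insertNthEquiv (fun _ => Bool) i).sum_comp, Fintype.sum_prod_type]
  refine sum_congr rfl fun b _ => sum_congr rfl fun ε _ => ?_
  rw [Fin.prod_univ_succAbove _ i]
  simp only [Fin.insertNthEquiv_apply, Fin.insertNth_apply_same, Fin.insertNth_apply_succAbove,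
    zsmul_eq_mul]
  have h : (i.removeNth fun j => tw (i.insertNth (α := fun _ => Bool) b ε j) (w j)) =
      fun j => tw (ε j) (w (i.succAbove j)) := by
    funext j
    simp [Fin.removeNth]
  rw [h]
  push_cast
  ring

/-- The Wirtinger derivative of type `t`. -/
noncomputable def Dt (t : Bool) (v : E n) (g : E n → ℂ) (z : E n) : ℂ :=
  if t then gd v g z else gb v g z

theorem cx_ext (h : DifferentiableAt ℝ ψ z) (t : Fin (m + 1) → Bool) (w : Fin (m + 1) → E n) :
    cx (extDeriv ψ z) t w = ∑ i : Fin (m + 1), (-1) ^ i.val * Dt (t i) (w i)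
      (fun y => cx (ψ y) (fun j => t (i.succAbove j)) fun j => w (i.succAbove j)) z := by
  rw [extDeriv, cx_alt]
  refine sum_congr rfl fun i _ => congrArg (_ * ·) ?_
  have h1 : ∀ v, fderiv ℝ (fun y => cx (ψ y) (fun j => t (i.succAbove j))
      fun j => w (i.succAbove j)) z v = cx (fderiv ℝ ψ z v) (fun j => t (i.succAbove j))
        fun j => w (i.succAbove j) := fun v => by
    simp only [← cxL_apply]
    exact congrArg (fun T : E n →L[ℝ] ℂ => T v)
      ((ContinuousLinearMap.hasFDerivAt _).comp z h.hasFDerivAt).fderiv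
  cases t i <;> simp only [Dt, gd, gb, h1, Fintype.sum_bool, co, tw] <;> simp <;> ring

/-- The coefficients of the part of bidegree `(p - 1, p)`. -/
noncomputable def Ak (ψ : E n → Al n (Fin m)) (e : Fin (m + 1) ≃ Fin p × Fin 2) (i : Fin (m + 1))
    (κ : Fin (m + 1) → Fin n) (y : E n) : ℂ :=
  sN y ^ p * (sN y)⁻¹ * (conj (y (κ i)) *
    cx (ψ y) (fun j => ty (e (i.succAbove j))) fun j => ev (κ (i.succAbove j)))

theorem Hard_prod (e : Fin (m + 1) ≃ Fin p × Fin 2) {i : Fin (m + 1)} (hi : (e i).2 = 0)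
    (a b : ℂ) : a * (∏ j, if (e (i.succAbove j)).2 = 0 then a else b) = a ^ p * b ^ p := by
  rw [← prod_snd e, Fin.prod_univ_succAbove _ i, if_pos hi]

theorem Bas.ic_Ak (h : Bas ψ) (e : Fin (m + 1) ≃ Fin p × Fin 2) {i : Fin (m + 1)}
    (hi : (e i).2 = 0) (κ : Fin (m + 1) → Fin n) : IC (Ak ψ e i κ) := by
  refine ⟨((sN_sm.pow p).contDiffOn.mul fun z hz => (Span_inv hz).contDiffWithinAt).mul
    ((Span_cj _).contDiffOn.mul (h.cx_sm _ _)), fun c hc z hz => ?_⟩
  have h1 : conj c ≠ 0 := (map_ne_zero _).2 hc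
  have h2 := sN_ne hz
  have h3 : (∏ j, cj (ty (e (i.succAbove j))) c) = c⁻¹ * (c ^ p * conj c ^ p) := by
    rw [← Hard_prod e hi, inv_mul_cancel_left₀ hc]
    exact prod_congr rfl fun j _ => by simp [cj, ty]
  rw [Ak, Ak, ← h.cx_inv hc hz, sN_smul, h3, PiLp.smul_apply, smul_eq_mul, map_mul, mul_pow,
    mul_pow]
  field_simp

theorem Hor.span2 {f : Al n (Fin m)} (h : Hor z f) (hz : z ≠ 0) (e : Fin (m + 1) ≃ Fin p × Fin 2)
    {i : Fin (m + 1)} {l₀ : Fin p} (hi : e i = (l₀, 0)) (u v : Fin p → E n) :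
    cx f (fun j => ty (e (i.succAbove j))) (fun j => mix u v (e (i.succAbove j))) =
      ∑ κ : Fin (m + 1) → Fin n, sN z ^ p * (sN z)⁻¹ * (conj (z (κ i)) *
        cx f (fun j => ty (e (i.succAbove j))) fun j => ev (κ (i.succAbove j))) *
        ∏ l, if l = l₀ then gb (v l) (Pk e κ l) z else gd (u l) (gb (v l) (Pk e κ l)) z := by
  have hi2 : (e i).2 = 0 := by rw [hi]
  have hne : ∀ j, e (i.succAbove j) ≠ (l₀, 0) := fun j hj =>
    Fin.succAbove_ne i j (e.injective (hj.trans hi.symm))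
  have hev : ∀ a, ∑ b, conj (z b) * ev a b = conj (z a) := fun a => by
    simp [ev, PiLp.single_apply]
  have hN : ∑ b, conj (z b) * z b = sN z := by
    simp only [sN, EuclideanSpace.norm_sq_eq, ofReal_sum, conj_mul', ofReal_pow]
  have h1 := exp_sum e (G := fun w => (∑ b, conj (z b) * w i b) *
      cx f (fun j => ty (e (i.succAbove j))) fun j => w (i.succAbove j)) (fun w => by
      rw [cx_exp, ← (Fin.insertNthEquiv (fun _ => Fin n) i).sum_comp, Fintype.sum_prod_type,
        sum_mul_sum]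
      refine sum_congr rfl fun a _ => sum_congr rfl fun κ _ => ?_
      rw [Fin.prod_univ_succAbove _ i]
      simp only [Fin.insertNthEquiv_apply, Fin.insertNth_apply_same,
        Fin.insertNth_apply_succAbove, hev]
      rw [show cj (ty (e i)) (w i a) = w i a by simp [cj, ty, hi2]]
      ring)
    (fun b l => if b then (if l = l₀ then z else u l) else if l = l₀ then 0 else z)
    (fun b l => if b then sh z (v l) else sh2 z (u l) (v l)) fun τ l hl => by
      by_cases hl0 : l = l₀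
      · subst hl0
        simp [mix, hi, hl]
      · obtain ⟨j, hj⟩ := Fin.exists_succAbove_eq (x := e.symm (l, 0)) (y := i) fun h0 =>
          hl0 (congrArg Prod.fst ((e.symm_apply_eq.1 h0).trans hi))
        exact mul_eq_zero_of_right _ (h.cx_zero _ (j := j) (c := 1) (by simp [mix, hj, hl, hl0]))
  simp only [Fintype.sum_bool, if_true, Bool.false_eq_true, if_false, hev] at h1
  rw [h.cx_sh] at h1
  have h2 := Hard_prod e hi2 1 (sN z)⁻¹
  rw [one_mul, one_pow, one_mul] at h2
  have h3 : (fun j => mix (fun l => if l = l₀ then z else u l) v (e (i.succAbove j))) =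
      fun j => mix u v (e (i.succAbove j)) := by
    funext j
    unfold mix
    split_ifs with a
    · exact if_neg fun b => hne j (Prod.ext b a)
    · rfl
  rw [h2, h3, show mix (fun l => if l = l₀ then z else u l) (fun l => sh z (v l)) (e i) = z by
    simp [mix, hi], hN] at h1
  have h4 : ∀ κ : Fin (m + 1) → Fin n, (∏ l, if l = l₀ then gb (v l) (Pk e κ l) z
      else gd (u l) (gb (v l) (Pk e κ l)) z) = ∏ l,
        ((if l = l₀ then z else u l) (κ (e.symm (l, 0))) * conj (sh z (v l) (κ (e.symm (l, 1)))) +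
          (if l = l₀ then 0 else z) (κ (e.symm (l, 0))) *
            conj (sh2 z (u l) (v l) (κ (e.symm (l, 1))))) := fun κ =>
    prod_congr rfl fun l _ => by
      split_ifs
      · simp [Pk, gb_Pe hz]
      · exact gl_Pe hz _ _ _ _
  simp only [h4, mul_assoc (_ * (sN z)⁻¹), ← mul_sum, h1]
  have h5 := sN_ne hz
  rw [inv_pow]
  field_simp

theorem Hard_swap {Y : Equiv.Perm (Fin p) → ℂ} {a b : Fin p} (hab : a ≠ b)
    (h : ∀ σ, Y (σ * Equiv.swap a b) = Y σ) :
    ∑ σ : Equiv.Perm (Fin p), ((Equiv.Perm.sign σ : ℤ) : ℂ) * Y σ = 0 := by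
  have h1 := Equiv.sum_comp (Equiv.mulRight (Equiv.swap a b))
    fun σ => ((Equiv.Perm.sign σ : ℤ) : ℂ) * Y σ
  simp only [Equiv.coe_mulRight, h, Equiv.Perm.sign_mul, Equiv.Perm.sign_swap hab, mul_neg,
    mul_one, Units.val_neg, Int.cast_neg, neg_mul, sum_neg_distrib] at h1
  linear_combination -h1 / 2

/-- The exact densities with complex potentials. -/
noncomputable def dxc (a : E n → ℂ) (P : Fin p → E n → ℂ) (l : Fin p) (x : Fr n p) : ℂ :=
  mdC (update (fun l' => gl (P l') x.1 x.2) l (gg a (P l) x.1 x.2 + a x.1 • gl (P l) x.1 x.2))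

theorem Hard_anti {a : E n → ℂ} {P : Fin p → E n → ℂ} (ha : IC a) (hP : ∀ l, IC (P l)) (hz : z ≠ 0)
    (l₀ : Fin p) (v : Fin p → E n) :
    ∑ σ : Equiv.Perm (Fin p), ∑ π : Equiv.Perm (Fin p),
      ((Equiv.Perm.sign σ : ℤ) : ℂ) * ((Equiv.Perm.sign π : ℤ) : ℂ) *
        gd (v (σ l₀)) (fun y => a y * ∏ l, if l = l₀ then gb (v (π l)) (P l) y
          else gd (v (σ l)) (gb (v (π l)) (P l)) y) z = dxc a P l₀ (z, v) := by
  let H : Fin p → E n → E n → E n → ℂ := fun l s t y =>
    if l = l₀ then a y * gb t (P l) y else gd s (gb t (P l)) y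
  have hb : ∀ l t, ContDiffAt ℝ ∞ (gb t (P l)) z := fun l t =>
    contDiffAt_gb ((hP l).contDiffAt hz) le_rfl t
  have hd : ∀ l s t, DifferentiableAt ℝ (H l s t) z := fun l s t => by
    unfold H
    split_ifs
    · exact ((ha.contDiffAt hz).mul (hb l t)).differentiableAt (by simp)
    · exact (contDiffAt_gd (k := ∞) (hb l t) le_rfl s).differentiableAt (by simp)
  have h1 : ∀ s t : Fin p → E n, (fun y => a y * ∏ l, if l = l₀ then gb (t l) (P l) y
      else gd (s l) (gb (t l) (P l)) y) = fun y => ∏ l, H l (s l) (t l) y := fun s t => by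
    funext y
    rw [← mul_prod_erase _ _ (mem_univ l₀), ← mul_prod_erase _ (fun l => H l _ _ y) (mem_univ l₀),
      if_pos rfl, ← mul_assoc]
    refine congrArg₂ (· * ·) (if_pos rfl).symm (prod_congr rfl fun l hl => ?_)
    simp only [H, if_neg (ne_of_mem_erase hl)]
  have h2 : ∀ σ π : Equiv.Perm (Fin p), gd (v (σ l₀)) (fun y => a y * ∏ l,
      if l = l₀ then gb (v (π l)) (P l) y else gd (v (σ l)) (gb (v (π l)) (P l)) y) z =
      ∑ l, gd (v (σ l₀)) (H l (v (σ l)) (v (π l))) z *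
        ∏ j ∈ univ.erase l, H j (v (σ j)) (v (π j)) z := fun σ π => by
    rw [h1 (fun l => v (σ l)) fun l => v (π l), gd_prod _ fun l _ => hd l _ _]
  simp only [h2, mul_sum]
  rw [sum_comm, sum_congr rfl fun π _ => sum_comm, sum_comm, sum_eq_single l₀ (fun l _ hl => ?_)
    (by simp), sum_comm]
  · refine sum_congr rfl fun σ _ => sum_congr rfl fun π _ => ?_
    congr 1
    rw [← mul_prod_erase _ _ (mem_univ l₀), update_self]
    refine congrArg₂ (· * ·) ?_ (prod_congr rfl fun l hl => ?_)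
    · simp only [H, if_true]
      exact gd_mul ((ha.contDiffAt hz).differentiableAt (by simp))
        ((hb l₀ _).differentiableAt (by simp))
    · rw [update_of_ne (ne_of_mem_erase hl)]
      exact if_neg (ne_of_mem_erase hl)
  · refine sum_eq_zero fun π _ => ?_
    simp only [mul_assoc]
    refine Hard_swap hl fun σ => congrArg (_ * ·) (congrArg₂ (· * ·) ?_
      (prod_congr rfl fun j hj => ?_))
    · simp only [H, if_neg hl, Equiv.Perm.mul_apply, Equiv.swap_apply_left, Equiv.swap_apply_right]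
      exact gd_gd_comm ((hb l _).of_le GW2_two) _ _
    · by_cases h0 : j = l₀
      · simp only [H, if_pos h0]
      · rw [Equiv.Perm.mul_apply, Equiv.swap_apply_of_ne_of_ne (ne_of_mem_erase hj) h0]

/-- The antisymmetrised term of the exterior derivative. -/
noncomputable def TT (ψ : E n → Al n (Fin m)) (e : Fin (m + 1) ≃ Fin p × Fin 2) (i : Fin (m + 1))
    (x : Fr n p) : ℂ :=
  ∑ σ : Equiv.Perm (Fin p), ∑ π : Equiv.Perm (Fin p),
    ((Equiv.Perm.sign σ : ℤ) : ℂ) * ((Equiv.Perm.sign π : ℤ) : ℂ) *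
      Dt (ty (e i)) (mix (x.2 ∘ σ) (x.2 ∘ π) (e i)) (fun y => cx (ψ y)
        (fun j => ty (e (i.succAbove j))) fun j => mix (x.2 ∘ σ) (x.2 ∘ π) (e (i.succAbove j))) x.1

theorem Bas.TT_eq (h : Bas ψ) (e : Fin (m + 1) ≃ Fin p × Fin 2) {i : Fin (m + 1)}
    (hi : (e i).2 = 0) {x : Fr n p} (hx : x.1 ≠ 0) :
    TT ψ e i x = ∑ κ : Fin (m + 1) → Fin n, dxc (Ak ψ e i κ) (Pk e κ) (e i).1 x := by
  have hi' : e i = ((e i).1, 0) := Prod.ext rfl hi
  refine Eq.trans ?_ (sum_congr rfl fun κ _ =>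
    Hard_anti (h.ic_Ak e hi κ) (P := Pk e κ) (fun _ => ic_Pe _ _) hx (e i).1 x.2)
  rw [sum_comm]
  refine sum_congr rfl fun σ _ => ?_
  rw [sum_comm]
  refine sum_congr rfl fun π _ => ?_
  rw [← mul_sum, ← gd_sum]
  · rw [Dt, if_pos (by simp [ty, hi]), mix, if_pos hi]
    refine congrArg (_ * ·) (gd_congr ?_ _).eq_of_nhds
    filter_upwards [LHb_nh hx] with y hy
    exact (h.hor y hy).span2 hy e hi' _ _
  · intro κ _
    have hb : ∀ l t, ContDiffAt ℝ ∞ (gb t (Pk e κ l)) x.1 := fun l t =>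
      contDiffAt_gb ((ic_Pe _ _).contDiffAt hx) le_rfl t
    refine (((h.ic_Ak e hi κ).contDiffAt hx).mul (contDiffAt_prod fun l _ => ?_)).differentiableAt
      (by simp)
    split_ifs
    · exact hb _ _
    · exact contDiffAt_gd (hb _ _) le_rfl _

theorem TT_conj (ψ : E n → Al n (Fin m)) (e : Fin (m + 1) ≃ Fin p × Fin 2) {i : Fin (m + 1)}
    (hi : (e i).2 ≠ 0) (x : Fr n p) :
    TT ψ e i x = conj (TT ψ (e.trans ((Equiv.refl _).prodCongr (Equiv.swap 0 1))) i x) := by
  have h1 : ∀ s : Fin p × Fin 2, ty s = !ty ((Equiv.refl _).prodCongr (Equiv.swap 0 1) s) := by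
    rintro ⟨l, t⟩
    fin_cases t <;> simp [ty]
  have h2 : ∀ (u v : Fin p → E n) (s : Fin p × Fin 2),
      mix u v s = mix v u ((Equiv.refl _).prodCongr (Equiv.swap 0 1) s) := by
    rintro u v ⟨l, t⟩
    fin_cases t <;> simp [mix]
  have h3 : ty (e i) = false := by simp [ty, hi]
  have h4 : ty ((Equiv.refl _).prodCongr (Equiv.swap 0 1) (e i)) = true := by
    simpa [h3] using h1 (e i)
  rw [TT, TT, sum_comm, map_sum]
  refine sum_congr rfl fun π _ => ?_
  rw [map_sum]
  refine sum_congr rfl fun σ _ => ?_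
  simp only [map_mul, map_intCast, Equiv.trans_apply, h3, h4, Dt, if_true, Bool.false_eq_true,
    if_false, ← gb_conj, ← cx_conj, ← h1, ← h2]
  ring

variable {S : Measure (Fr n p)}

theorem Closed.dxc_zero (hc : Closed S) (hS : IsCur S) {a : E n → ℂ} {P : Fin p → E n → ℂ}
    (ha : IC a) (hP : ∀ l, IC (P l)) (l : Fin p) :
    Integrable (dxc a P l) S ∧ ∫ x, dxc a P l x ∂S = 0 := by
  let c : Fin p → Bool → ℂ := fun l' b => if b then (if l' = l then 0 else I) else 1
  have hq : ∀ τ : Fin p → Bool, Pots fun l' => ri (τ l') (P l') := fun τ l' => ⟨0, (hP l').lh_ri _⟩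
  have h1 : dxc a P l =ᵐ[S] fun x => ∑ τ : Fin p → Bool,
      (∏ l', c l' (τ l')) * dx a (P l) (fun l' => ri (τ l') (P l')) l x := by
    filter_upwards [hS.ne] with x hx
    refine Eq.trans (congrArg mdC (funext fun l' => ?_)) ((mdC_bool c fun l' b =>
      update (fun l' => lv (ri b (P l')) x) l
        (gg a (P l) x.1 x.2 + a x.1 • gl (P l) x.1 x.2) l').trans
      (sum_congr rfl fun τ _ => congrArg (_ * ·) (congrArg mdC (funext fun l' => ?_))))
    · by_cases h0 : l' = l
      · simp [c, h0]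
      · simp only [update_of_ne h0, c, if_neg h0]
        exact (hP l').gl_bool hx x.2
    · by_cases h0 : l' = l
      · simp only [h0, update_self]
      · simp only [update_of_ne h0]
  have h2 := fun τ : Fin p → Bool =>
    (hS.integrable (tst_dx ha (hP l) (hq τ) l)).const_mul (∏ l', c l' (τ l'))
  refine ⟨(integrable_finsetSum _ fun τ _ => h2 τ).congr h1.symm, ?_⟩
  rw [integral_congr_ae h1, integral_finsetSum _ fun τ _ => h2 τ]
  exact sum_eq_zero fun τ _ => by rw [integral_const_mul, hc.dx_zero hS ha (hP l) (hq τ), mul_zero]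

theorem Closed.TT_zero (hc : Closed S) (hS : IsCur S) (h : Bas ψ)
    (e : Fin (m + 1) ≃ Fin p × Fin 2) (i : Fin (m + 1)) :
    Integrable (TT ψ e i) S ∧ ∫ x, TT ψ e i x ∂S = 0 := by
  have key : ∀ e : Fin (m + 1) ≃ Fin p × Fin 2, (e i).2 = 0 →
      Integrable (TT ψ e i) S ∧ ∫ x, TT ψ e i x ∂S = 0 := fun e hi => by
    have h1 : TT ψ e i =ᵐ[S] _ := hS.ne.mono fun x hx => h.TT_eq e hi hx
    have h2 := fun κ => hc.dxc_zero hS (h.ic_Ak e hi κ) (P := Pk e κ) (fun _ => ic_Pe _ _) (e i).1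
    refine ⟨(integrable_finsetSum _ fun κ _ => (h2 κ).1).congr h1.symm, ?_⟩
    rw [integral_congr_ae h1, integral_finsetSum _ fun κ _ => (h2 κ).1]
    exact sum_eq_zero fun κ _ => (h2 κ).2
  by_cases hi : (e i).2 = 0
  · exact key e hi
  · obtain ⟨h1, h2⟩ := key (e.trans ((Equiv.refl _).prodCongr (Equiv.swap 0 1))) (by
      have h3 : (e i).2 = 1 := by omega
      simp [h3])
    rw [funext (TT_conj ψ e hi), integral_conj, h2, map_zero]
    exact ⟨(conjCLE : ℂ →L[ℝ] ℂ).integrable_comp h1, rfl⟩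

/-- A closed measure on frames vanishes on the exterior derivative of every basic form. -/
theorem Closed.hard (hc : Closed S) (hS : IsCur S) (h : Bas ψ) (e : Fin (m + 1) ≃ Fin p × Fin 2) :
    ∫ x, extDeriv ψ x.1 (fun j => frm x.2 (e j)) ∂S = 0 := by
  have h1 : (fun x : Fr n p => (p.factorial : ℂ) ^ 2 * (I / 2) ^ p *
      extDeriv ψ x.1 fun j => frm x.2 (e j)) =ᵐ[S]
      fun x => ∑ i : Fin (m + 1), (-1) ^ i.val * TT ψ e i x := by
    filter_upwards [hS.ne] with x hx
    simp only [← cx_anti, cx_ext ((h.sm.contDiffAt (LHb_nh hx)).differentiableAt (by simp)), TT,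
      mul_sum]
    rw [sum_comm (s := univ (α := Fin (m + 1)))]
    refine sum_congr rfl fun σ _ => ?_
    rw [sum_comm (s := univ (α := Fin (m + 1)))]
    exact sum_congr rfl fun π _ => sum_congr rfl fun i _ => mul_left_comm _ _ _
  have h2 := integral_congr_ae h1
  rw [integral_const_mul, integral_complex_ofReal,
    integral_finsetSum _ fun i _ => (hc.TT_zero hS h e i).1.const_mul _,
    sum_eq_zero fun i _ => by rw [integral_const_mul, (hc.TT_zero hS h e i).2, mul_zero]] at h2
  exact ofReal_eq_zero.1 ((mul_eq_zero.1 h2).resolve_left (Span_c p))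

end Pool.Agent.Lib.MP_a47f92_an
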