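import Pool.Agent.Lib.MP_a47f92_an.G.Cur2

set_option autoImplicit false

/-! Complexification of real alternating forms on `E n`. -/

namespace Pool.Agent.Lib.MP_a47f92_an

open Complex Function Finset
open scoped ComplexConjugate

variable {n p : ℕ} {ι : Type} [Fintype ι] [DecidableEq ι]

/-- Real alternating forms. -/
abbrev Al (n : ℕ) (ι : Type) := E n [⋀^ι]→L[ℝ] ℝ

/-- The vector `v` or the vector `I v`. -/
noncomputable def tw (b : Bool) (v : E n) : E n := if b then I • v else v

/-- The real basis. -/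
noncomputable def bs (r : Fin n × Bool) : E n := tw r.2 (ev r.1)

/-- Real coordinates. -/
noncomputable def rco (v : E n) (r : Fin n × Bool) : ℝ := if r.2 then (v r.1).im else (v r.1).re

/-- Real coordinates as a vector of the complexification. -/
noncomputable def rv (v : E n) : Fin n × Bool → ℂ := fun r => rco v r

theorem sum_bs (v : E n) : ∑ r, rco v r • bs r = v := by
  conv_rhs => rw [← sum_ev v]
  rw [Fintype.sum_prod_type]
  refine sum_congr rfl fun a _ => ?_
  conv_rhs => rw [← re_add_im (v a), add_smul, mul_smul]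
  simp [rco, bs, tw, add_comm]

/-- The complex multilinear extension. -/
noncomputable def cM (f : Al n ι) : MultilinearMap ℂ (fun _ : ι => Fin n × Bool → ℂ) ℂ :=
  ∑ r : ι → Fin n × Bool, (f (fun j => bs (r j)) : ℂ) •
    (MultilinearMap.mkPiAlgebra ℂ ι ℂ).compLinearMap fun j => LinearMap.proj (r j)

theorem cM_apply (f : Al n ι) (ξ : ι → Fin n × Bool → ℂ) :
    cM f ξ = ∑ r : ι → Fin n × Bool, (f (fun j => bs (r j)) : ℂ) * ∏ j, ξ j (r j) := by
  simp [cM]

theorem cM_rv (f : Al n ι) (w : ι → E n) : cM f (fun j => rv (w j)) = f w := by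
  have h : f w = f.toContinuousMultilinearMap.toMultilinearMap
      fun j => ∑ r, rco (w j) r • bs r := by
    simp only [sum_bs]
    rfl
  rw [h, MultilinearMap.map_sum, cM_apply]
  push_cast
  refine sum_congr rfl fun r _ => ?_
  rw [MultilinearMap.map_smul_univ, smul_eq_mul, mul_comm]
  push_cast
  rfl

theorem Cx_perm (f : Al n ι) (w : ι → E n) (σ : Equiv.Perm ι) :
    (f (fun j => w (σ j)) : ℂ) = ((Equiv.Perm.sign σ : ℤ) : ℂ) * f w := by
  have h : f (fun j => w (σ j)) = Equiv.Perm.sign σ • f w := f.toAlternatingMap.map_perm w σ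
  rw [h, Units.smul_def, zsmul_eq_mul]
  push_cast
  rfl

theorem cM_perm (f : Al n ι) (ξ : ι → Fin n × Bool → ℂ) (σ : Equiv.Perm ι) :
    cM f (fun j => ξ (σ j)) = ((Equiv.Perm.sign σ : ℤ) : ℂ) * cM f ξ := by
  rw [cM_apply, cM_apply, mul_sum, ← (Equiv.arrowCongr σ.symm (Equiv.refl _)).sum_comp]
  refine sum_congr rfl fun r _ => ?_
  rw [← mul_assoc, ← Cx_perm f (fun j => bs (r j)) σ, ← Equiv.prod_comp σ fun j => ξ j (r j)]
  rfl

/-- The extension is alternating. -/
noncomputable def cA (f : Al n ι) : (Fin n × Bool → ℂ) [⋀^ι]→ₗ[ℂ] ℂ :=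
  { cM f with
    map_eq_zero_of_eq' := fun ξ i j h hij => by
      have h1 := cM_perm f ξ (Equiv.swap i j)
      have h2 : (fun k => ξ (Equiv.swap i j k)) = ξ := by
        funext k
        rw [Equiv.swap_apply_def]
        split_ifs with a b
        · rw [a, h]
        · rw [b, h]
        · rfl
      rw [h2, Equiv.Perm.sign_swap hij] at h1
      push_cast at h1
      change cM f ξ = 0
      linear_combination h1 / 2 }

theorem cM_mat (f : Al n ι) (ξ : ι → Fin n × Bool → ℂ) (M : Matrix ι ι ℂ) :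
    cM f (fun j => ∑ i, M i j • ξ i) = M.det * cM f ξ := by
  have h := ((cA f).compLinearMap (Fintype.linearCombination ℂ ξ)).eq_smul_basis_det
    (Pi.basisFun ℂ ι)
  have h1 := congrArg (fun g : (ι → ℂ) [⋀^ι]→ₗ[ℂ] ℂ => g fun j i => M i j) h
  simp only [AlternatingMap.compLinearMap_apply, AlternatingMap.smul_apply, Pi.basisFun_det_apply,
    Pi.basisFun_apply, Fintype.linearCombination_apply_single, one_smul, smul_eq_mul] at h1
  rw [mul_comm, ← Matrix.det_transpose]
  exact h1

/-- Coefficients of the projections on the types `(1,0)` and `(0,1)`. -/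
noncomputable def co (t b : Bool) : ℂ := if b then (if t then -I else I) / 2 else 1 / 2

/-- A number or its conjugate. -/
noncomputable def cj (t : Bool) (c : ℂ) : ℂ := if t then c else conj c

/-- The part of type `t` of a vector. -/
noncomputable def tv (t : Bool) (v : E n) : Fin n × Bool → ℂ := fun r => co t r.2 * cj t (v r.1)

theorem tv_eq (t : Bool) (v : E n) : tv t v = ∑ b, co t b • rv (tw b v) := by
  funext ⟨a, b⟩
  cases t <;> cases b <;> apply Complex.ext <;> simp [tv, co, cj, rv, rco, tw] <;> ring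

theorem tv_sum (t : Bool) (v : E n) : tv t v = ∑ a, cj t (v a) • tv t (ev a) := by
  funext ⟨a, b⟩
  cases t <;> simp [tv, cj, ev, PiLp.single_apply, apply_ite, mul_comm]

/-- The part of type `t` of a form. -/
noncomputable def cx (f : Al n ι) (t : ι → Bool) (w : ι → E n) : ℂ :=
  ∑ ε : ι → Bool, (∏ j, co (t j) (ε j)) * f fun j => tw (ε j) (w j)

theorem cx_eq (f : Al n ι) (t : ι → Bool) (w : ι → E n) :
    cx f t w = cM f fun j => tv (t j) (w j) := by
  simp only [tv_eq]
  rw [MultilinearMap.map_sum, cx]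
  refine sum_congr rfl fun ε _ => ?_
  rw [MultilinearMap.map_smul_univ, cM_rv, smul_eq_mul]

theorem cx_exp (f : Al n ι) (t : ι → Bool) (w : ι → E n) :
    cx f t w = ∑ κ : ι → Fin n, cx f t (fun j => ev (κ j)) * ∏ j, cj (t j) (w j (κ j)) := by
  rw [cx_eq, show (fun j => tv (t j) (w j)) = _ from funext fun j => tv_sum (t j) (w j),
    MultilinearMap.map_sum]
  refine sum_congr rfl fun κ _ => ?_
  rw [MultilinearMap.map_smul_univ, cx_eq, smul_eq_mul, mul_comm]

theorem cx_perm (f : Al n ι) (t : ι → Bool) (w : ι → E n) (σ : Equiv.Perm ι) :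
    cx f (fun j => t (σ j)) (fun j => w (σ j)) = ((Equiv.Perm.sign σ : ℤ) : ℂ) * cx f t w := by
  rw [cx_eq, cx_eq, ← cM_perm]

theorem cx_conj (f : Al n ι) (t : ι → Bool) (w : ι → E n) :
    cx f (fun j => !t j) w = conj (cx f t w) := by
  simp only [cx, map_sum, map_mul, map_prod, conj_ofReal]
  refine sum_congr rfl fun ε _ => congrArg (· * _) (prod_congr rfl fun j _ => ?_)
  cases t j <;> cases ε j <;> simp [co, neg_div, conj_ofNat]

theorem cx_smul (f : Al n ι) (t : ι → Bool) (c : ι → ℂ) (w : ι → E n) :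
    cx f t (fun j => c j • w j) = (∏ j, cj (t j) (c j)) * cx f t w := by
  rw [cx_exp, cx_exp f t w, mul_sum]
  refine sum_congr rfl fun κ _ => ?_
  rw [mul_left_comm, ← prod_mul_distrib]
  refine congrArg (_ * ·) (prod_congr rfl fun j _ => ?_)
  cases t j <;> simp [cj]

theorem tw_smul (b : Bool) (c : ℂ) (v : E n) : tw b (c • v) = c • tw b v := by
  cases b
  · rfl
  · exact smul_comm I c v

theorem tw_add (b : Bool) (u v : E n) : tw b (u + v) = tw b u + tw b v := by
  cases b
  · rfl
  · exact smul_add I u v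

/-- The type of a slot. -/
def ty (s : Fin p × Fin 2) : Bool := decide (s.2 = 0)

/-- Two frames in the slots of the two types. -/
def mix (u v : Fin p → E n) (s : Fin p × Fin 2) : E n := if s.2 = 0 then u s.1 else v s.1

/-- The real frame `v 1, I v 1, …, v p, I v p`. -/
noncomputable def frm (v : Fin p → E n) (s : Fin p × Fin 2) : E n :=
  if s.2 = 0 then v s.1 else I • v s.1

theorem cx_frm (f : Al n ι) (e : ι ≃ Fin p × Fin 2) (v : Fin p → E n) :
    cx f (fun j => ty (e j)) (fun j => mix v v (e j)) = (I / 2) ^ p * f fun j => frm v (e j) := by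
  let B : Matrix (Fin 2) (Fin 2) ℂ := !![1 / 2, 1 / 2; -I / 2, I / 2]
  let M := (Matrix.blockDiagonal fun _ : Fin p => B).submatrix (e.trans (Equiv.prodComm _ _))
    (e.trans (Equiv.prodComm _ _))
  have hM : M.det = (I / 2) ^ p := by
    rw [Matrix.det_submatrix_equiv_self, Matrix.det_blockDiagonal, prod_const, card_univ,
      Fintype.card_fin, Matrix.det_fin_two_of]
    congr 1
    ring
  rw [cx_eq, ← cM_rv, ← hM, ← cM_mat]
  congr 1
  funext j
  rw [← e.symm.sum_comp, tv_eq]
  obtain ⟨⟨l, t⟩, rfl⟩ := e.symm.surjective j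
  fin_cases t <;>
    simp [M, B, Fintype.sum_prod_type, Matrix.blockDiagonal_apply, ty, mix, frm, co, tw, add_comm,
      ite_smul]

theorem cx_mix (f : Al n ι) (e : ι ≃ Fin p × Fin 2) (u v : Fin p → E n)
    (σ π : Equiv.Perm (Fin p)) :
    cx f (fun j => ty (e j)) (fun j => mix (u ∘ σ) (v ∘ π) (e j)) =
      ((Equiv.Perm.sign σ : ℤ) : ℂ) * ((Equiv.Perm.sign π : ℤ) : ℂ) *
        cx f (fun j => ty (e j)) fun j => mix u v (e j) := by
  have h := cx_perm f (fun j => ty (e j)) (fun j => mix u v (e j))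
    (e.symm.permCongr (Equiv.prodCongrLeft ![σ, π]))
  rw [Equiv.Perm.sign_permCongr, Equiv.Perm.sign_prodCongrLeft, Fin.prod_univ_two] at h
  push_cast at h
  refine Eq.trans ?_ h
  congr 1 <;> funext j <;> obtain ⟨⟨l, t⟩, rfl⟩ := e.symm.surjective j <;> fin_cases t <;>
    simp [ty, mix]

theorem cx_anti (f : Al n ι) (e : ι ≃ Fin p × Fin 2) (v : Fin p → E n) :
    ∑ σ : Equiv.Perm (Fin p), ∑ π : Equiv.Perm (Fin p),
      ((Equiv.Perm.sign σ : ℤ) : ℂ) * ((Equiv.Perm.sign π : ℤ) : ℂ) *
        cx f (fun j => ty (e j)) (fun j => mix (v ∘ σ) (v ∘ π) (e j)) =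
      (p.factorial : ℂ) ^ 2 * (I / 2) ^ p * f fun j => frm v (e j) := by
  have h : ∀ σ : Equiv.Perm (Fin p),
      ((Equiv.Perm.sign σ : ℤ) : ℂ) * ((Equiv.Perm.sign σ : ℤ) : ℂ) = 1 := fun σ => by
    rcases Int.units_eq_one_or (Equiv.Perm.sign σ) with h | h <;> simp [h]
  rw [sum_congr rfl fun σ _ => sum_congr rfl fun π _ => show _ = (I / 2) ^ p *
    (f fun j => frm v (e j) : ℂ) by
      rw [cx_mix, cx_frm]
      linear_combination (((Equiv.Perm.sign π : ℤ) : ℂ) * ((Equiv.Perm.sign π : ℤ) : ℂ) * h σ +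
        h π) * ((I / 2) ^ p * (f fun j => frm v (e j) : ℂ))]
  simp only [sum_const, card_univ, Fintype.card_perm, Fintype.card_fin, nsmul_eq_mul]
  ring

end Pool.Agent.Lib.MP_a47f92_an
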