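import Pool.Agent.Lib.MP_a47f92_an.Lit.Cx

set_option autoImplicit false
set_option linter.unusedSectionVars false

/-! Every form on projective space is, on complex frames, a combination of products of complex
Hessians of universal functions. -/

namespace Pool.Agent.Lib.MP_a47f92_an

open Complex Function Finset Filter Topology
open scoped ComplexConjugate ContDiff

variable {n p : ℕ} {ι : Type} [Fintype ι] [DecidableEq ι] {z : E n} {f : Al n ι}
  {φ : E n → Al n ι}

/-- The form vanishes on the complex line through `z`. -/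
def Hor (z : E n) (f : Al n ι) : Prop := ∀ (w : ι → E n) (j : ι) (c : ℂ), w j = c • z → f w = 0

/-- Smooth forms on projective space. -/
structure Bas (φ : E n → Al n ι) : Prop where
  sm : ContDiffOn ℝ ∞ φ {0}ᶜ
  inv : ∀ c : ℂ, c ≠ 0 → ∀ z, z ≠ 0 → ∀ w : ι → E n, φ (c • z) (fun j => c • w j) = φ z w
  hor : ∀ z, z ≠ 0 → Hor z (φ z)

theorem Hor.cx_zero (h : Hor z f) (t : ι → Bool) {w : ι → E n} {j : ι} {c : ℂ}
    (hj : w j = c • z) : cx f t w = 0 := by
  refine sum_eq_zero fun ε _ => ?_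
  rw [h (fun j => tw (ε j) (w j)) j ((if ε j then I else 1) * c) ?_, ofReal_zero, mul_zero]
  rw [hj]
  cases ε j <;> simp [tw, mul_smul]

theorem Hor.add (h : Hor z f) (w : ι → E n) (c : ι → ℂ) : f (fun j => w j + c j • z) = f w := by
  have h1 := f.toContinuousMultilinearMap.toMultilinearMap.map_add_univ (fun j => c j • z) w
  rw [sum_eq_single ∅ (fun s _ hs => ?_) (by simp), piecewise_empty] at h1
  · simp only [add_comm (w _)]
    exact h1
  · obtain ⟨j, hj⟩ := nonempty_iff_ne_empty.2 hs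
    exact h _ j (c j) (piecewise_eq_of_mem _ _ _ hj)

theorem Hor.cx_add (h : Hor z f) (t : ι → Bool) (w : ι → E n) (c : ι → ℂ) :
    cx f t (fun j => w j + c j • z) = cx f t w := by
  refine sum_congr rfl fun ε _ => congrArg (_ * ·) (congrArg ofReal ?_)
  rw [← h.add (fun j => tw (ε j) (w j)) fun j => (if ε j then I else 1) * c j]
  congr 1
  funext j
  cases ε j <;> simp [tw, mul_smul]

/-- The typed part as a continuous linear map of the form. -/
noncomputable def cxL (t : ι → Bool) (w : ι → E n) : Al n ι →L[ℝ] ℂ :=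
  ∑ ε : ι → Bool, (∏ j, co (t j) (ε j)) •
    ofRealCLM.comp (ContinuousAlternatingMap.apply ℝ (E n) ℝ fun j => tw (ε j) (w j))

theorem cxL_apply (t : ι → Bool) (w : ι → E n) (f : Al n ι) : cxL t w f = cx f t w := by
  simp [cxL, cx]

theorem Bas.cx_sm (h : Bas φ) (t : ι → Bool) (w : ι → E n) :
    ContDiffOn ℝ ∞ (fun z => cx (φ z) t w) {0}ᶜ := by
  simp only [← cxL_apply]
  exact (cxL t w).contDiff.comp_contDiffOn h.sm

theorem Bas.cx_inv (h : Bas φ) {c : ℂ} (hc : c ≠ 0) (hz : z ≠ 0) (t : ι → Bool) (w : ι → E n) :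
    (∏ j, cj (t j) c) * cx (φ (c • z)) t w = cx (φ z) t w := by
  rw [← cx_smul]
  refine sum_congr rfl fun ε _ => congrArg (_ * ·) (congrArg ofReal ?_)
  simp only [tw_smul]
  exact h.inv c hc z hz _

/-- The squared norm. -/
noncomputable def sN (w : E n) : ℂ := ((‖w‖ ^ 2 : ℝ) : ℂ)

theorem sN_ne (hz : z ≠ 0) : sN z ≠ 0 := ofReal_ne_zero.2 (pow_ne_zero _ (norm_ne_zero_iff.2 hz))

theorem sN_sm : ContDiff ℝ ∞ (sN : E n → ℂ) := ofRealCLM.contDiff.comp (contDiff_norm_sq ℂ)

theorem sN_smul (c : ℂ) (z : E n) : sN (c • z) = c * conj c * sN z := by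
  rw [sN, sN, norm_smul, mul_conj, normSq_eq_norm_sq]
  push_cast
  ring

theorem Span_co (a : Fin n) : ContDiff ℂ ∞ fun w : E n => w a :=
  (EuclideanSpace.proj a : E n →L[ℂ] ℂ).contDiff

theorem Span_coR (a : Fin n) : ContDiff ℝ ∞ fun w : E n => w a := (Span_co a).restrict_scalars ℝ

theorem Span_cj (a : Fin n) : ContDiff ℝ ∞ fun w : E n => conj (w a) :=
  conjCLE.contDiff.comp (Span_coR a)

theorem Span_inv (hz : z ≠ 0) : ContDiffAt ℝ ∞ (fun w : E n => (sN w)⁻¹) z :=
  sN_sm.contDiffAt.inv (sN_ne hz)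

/-- The entries of the orthogonal projection on the line through `w`. -/
noncomputable def Pe (a b : Fin n) (w : E n) : ℂ := w a * (conj (w b) * (sN w)⁻¹)

theorem ic_Pe (a b : Fin n) : IC (Pe a b) := by
  refine ⟨fun z hz => ((Span_coR a).contDiffAt.mul
    ((Span_cj b).contDiffAt.mul (Span_inv hz))).contDiffWithinAt, fun c hc z hz => ?_⟩
  have h1 : conj c ≠ 0 := (map_ne_zero _).2 hc
  have h2 := sN_ne hz
  simp only [Pe, sN_smul, PiLp.smul_apply, smul_eq_mul, map_mul]
  field_simp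

/-- The vector in the first derivative of the projection. -/
noncomputable def sh (z v : E n) : E n :=
  (sN z)⁻¹ • v + conj (gb v (fun w => (sN w)⁻¹) z) • z

/-- The vector in the second derivative of the projection. -/
noncomputable def sh2 (z u v : E n) : E n :=
  WithLp.toLp 2 fun b => conj (gd u (gb v fun w => conj (w b) * (sN w)⁻¹) z)

theorem Span_gd (a : Fin n) (v z : E n) : gd v (fun w : E n => w a) z = v a := by
  rw [gd_holo ((Span_co a).differentiable (by simp) z)]
  exact congrArg (fun T : E n →L[ℂ] ℂ => T v) (EuclideanSpace.proj a : E n →L[ℂ] ℂ).fderiv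

theorem Span_gb (a : Fin n) (v z : E n) : gb v (fun w : E n => w a) z = 0 :=
  gb_holo ((Span_co a).differentiable (by simp) z)

theorem conj_sN (z : E n) : conj (sN z) = sN z := conj_ofReal _

theorem Span_R (hz : z ≠ 0) (b : Fin n) (v : E n) :
    gb v (fun w : E n => conj (w b) * (sN w)⁻¹) z = conj (sh z v b) := by
  rw [gb_mul ((Span_cj b).differentiable (by simp) z) ((Span_inv hz).differentiableAt (by simp)),
    gb_conj, Span_gd]
  simp [sh, conj_sN, mul_comm]

theorem gb_Pe (hz : z ≠ 0) (a b : Fin n) (v : E n) : gb v (Pe a b) z = z a * conj (sh z v b) := by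
  have h := gb_mul (v := v) ((Span_coR a).differentiable (by simp) z)
    (((Span_cj b).contDiffAt.mul (Span_inv hz)).differentiableAt (by simp))
  rw [Span_gb, Span_R hz, zero_mul, zero_add] at h
  exact h

theorem gl_Pe (hz : z ≠ 0) (a b : Fin n) (u v : E n) :
    gd u (gb v (Pe a b)) z = u a * conj (sh z v b) + z a * conj (sh2 z u v b) := by
  have h := GL_mul ((Span_coR a).contDiffAt.of_le GW2_two)
    (((Span_cj b).contDiffAt.mul (Span_inv hz)).of_le GW2_two) u v
  rw [Span_gb, Span_R hz, Span_gd, show gb v (fun w : E n => w a) = fun _ => 0 from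
    funext (Span_gb a v), gd_const] at h
  refine h.trans ?_
  simp [sh2, add_comm]

theorem prod_mix (e : ι ≃ Fin p × Fin 2) (α β : Fin p → E n) (κ : ι → Fin n) :
    ∏ j, cj (ty (e j)) (mix α β (e j) (κ j)) =
      ∏ l, α l (κ (e.symm (l, 0))) * conj (β l (κ (e.symm (l, 1)))) := by
  rw [← e.symm.prod_comp, Fintype.prod_prod_type]
  simp [Fin.prod_univ_two, cj, ty, mix]

theorem exp_sum (e : ι ≃ Fin p × Fin 2) {G : (ι → E n) → ℂ}
    (hG : ∀ w, G w = ∑ κ : ι → Fin n, G (fun j => ev (κ j)) * ∏ j, cj (ty (e j)) (w j (κ j)))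
    (α β : Bool → Fin p → E n)
    (h0 : ∀ τ : Fin p → Bool, ∀ l, τ l = false →
      G (fun j => mix (fun l => α (τ l) l) (fun l => β (τ l) l) (e j)) = 0) :
    ∑ κ : ι → Fin n, G (fun j => ev (κ j)) *
      ∏ l, ∑ b, α b l (κ (e.symm (l, 0))) * conj (β b l (κ (e.symm (l, 1)))) =
      G fun j => mix (α true) (β true) (e j) := by
  simp only [prod_univ_sum, Fintype.piFinset_univ, mul_sum]
  rw [sum_comm, sum_eq_single (fun _ => true) (fun τ _ hτ => ?_) (by simp), hG]
  · simp only [prod_mix]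
  · obtain ⟨l, hl⟩ := Function.ne_iff.1 hτ
    rw [← h0 τ l (by simpa using hl), hG]
    simp only [prod_mix]

theorem Hor.cx_sh (h : Hor z f) (t : ι → Bool) (s : ι → Fin p × Fin 2) (u v : Fin p → E n) :
    cx f t (fun j => mix u (fun l => sh z (v l)) (s j)) =
      (∏ j, if (s j).2 = 0 then 1 else (sN z)⁻¹) * cx f t fun j => mix u v (s j) := by
  have h1 := h.cx_add t (fun j => (if (s j).2 = 0 then 1 else (sN z)⁻¹) • mix u v (s j))
    fun j => if (s j).2 = 0 then 0 else conj (gb (v (s j).1) (fun w => (sN w)⁻¹) z)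
  rw [cx_smul] at h1
  refine Eq.trans (congrArg _ (funext fun j => ?_)) (h1.trans (congrArg (· * _)
    (prod_congr rfl fun j _ => ?_)))
  · unfold mix
    split_ifs
    · simp
    · rfl
  · cases t j <;> split_ifs <;> simp [cj, conj_sN]

theorem prod_snd (e : ι ≃ Fin p × Fin 2) (a b : ℂ) :
    (∏ j, if (e j).2 = 0 then a else b) = a ^ p * b ^ p := by
  rw [e.prod_comp fun s => if s.2 = 0 then a else b, Fintype.prod_prod_type]
  simp [Fin.prod_univ_two, mul_pow]

/-- The universal complex functions. -/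
noncomputable def Pk (e : ι ≃ Fin p × Fin 2) (κ : ι → Fin n) (l : Fin p) : E n → ℂ :=
  Pe (κ (e.symm (l, 0))) (κ (e.symm (l, 1)))

theorem Hor.span1 (h : Hor z f) (hz : z ≠ 0) (e : ι ≃ Fin p × Fin 2) (u v : Fin p → E n) :
    cx f (fun j => ty (e j)) (fun j => mix u v (e j)) =
      ∑ κ : ι → Fin n, sN z ^ p * cx f (fun j => ty (e j)) (fun j => ev (κ j)) *
        ∏ l, gd (u l) (gb (v l) (Pk e κ l)) z := by
  have h1 := exp_sum e (cx_exp f fun j => ty (e j)) (fun b l => if b then u l else z)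
    (fun b l => if b then sh z (v l) else sh2 z (u l) (v l)) fun τ l hl =>
      h.cx_zero _ (j := e.symm (l, 0)) (c := 1) (by simp [mix, hl])
  simp only [Fintype.sum_bool, if_true, Bool.false_eq_true, if_false] at h1
  rw [h.cx_sh, prod_snd] at h1
  simp only [Pk, gl_Pe hz, mul_assoc, ← mul_sum, h1]
  rw [← mul_assoc, ← mul_assoc, one_pow, mul_one, ← mul_pow, mul_inv_cancel₀ (sN_ne hz), one_pow,
    one_mul]

theorem mdC_bool (c : Fin p → Bool → ℂ) (M : Fin p → Bool → Mat p) :
    mdC (fun l => ∑ b, c l b • M l b) =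
      ∑ τ : Fin p → Bool, (∏ l, c l (τ l)) * mdC fun l => M l (τ l) := by
  simp only [mdC, Matrix.sum_apply, Matrix.smul_apply, smul_eq_mul, prod_univ_sum,
    Fintype.piFinset_univ, mul_sum, prod_mul_distrib]
  rw [sum_comm (s := univ (α := Fin p → Bool))]
  refine sum_congr rfl fun σ _ => ?_
  rw [sum_comm (s := univ (α := Fin p → Bool))]
  exact sum_congr rfl fun π _ => sum_congr rfl fun τ _ => by ring

/-- Real or imaginary part. -/
def ri (b : Bool) (a : E n → ℂ) (w : E n) : ℝ := if b then (a w).im else (a w).re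

theorem IC.lh_ri {a : E n → ℂ} (h : IC a) (b : Bool) : LH 0 (ri b a) := by
  cases b
  · exact h.re
  · exact h.im

theorem IC.gl_bool {a : E n → ℂ} (h : IC a) (hz : z ≠ 0) (v : Fin p → E n) :
    gl a z v = ∑ b : Bool, (if b then I else 1) • lv (ri b a) (z, v) := by
  rw [gl_split h hz, Fintype.sum_bool, add_comm]
  simp only [if_true, Bool.false_eq_true, if_false, one_smul]
  rfl

/-- The universal potentials. -/
noncomputable def qK (e : ι ≃ Fin p × Fin 2) (K : (ι → Fin n) × (Fin p → Bool)) (l : Fin p) :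
    E n → ℝ := ri (K.2 l) (Pk e K.1 l)

theorem lh_qK (e : ι ≃ Fin p × Fin 2) (K : (ι → Fin n) × (Fin p → Bool)) (l : Fin p) :
    LH 0 (qK e K l) := (ic_Pe _ _).lh_ri _

theorem pots_qK (e : ι ≃ Fin p × Fin 2) (K : (ι → Fin n) × (Fin p → Bool)) : Pots (qK e K) :=
  fun l => ⟨0, lh_qK e K l⟩

/-- The universal coefficients, up to the factor `‖z‖ ^ (2 p)`. -/
noncomputable def muK (e : ι ≃ Fin p × Fin 2) (K : (ι → Fin n) × (Fin p → Bool)) :
    Al n ι →L[ℝ] ℝ :=
  reCLM.comp ((((p.factorial : ℂ) ^ 2 * (I / 2) ^ p)⁻¹ * ∏ l, if K.2 l then I else 1) •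
    cxL (fun j => ty (e j)) fun j => ev (K.1 j))

theorem Span_c (p : ℕ) : (p.factorial : ℂ) ^ 2 * (I / 2) ^ p ≠ 0 :=
  mul_ne_zero (pow_ne_zero _ (Nat.cast_ne_zero.2 p.factorial_ne_zero))
    (pow_ne_zero _ (div_ne_zero I_ne_zero two_ne_zero))

/-- Pointwise expansion of a horizontal form on complex frames. -/
theorem Hor.span (h : Hor z f) (hz : z ≠ 0) (e : ι ≃ Fin p × Fin 2) (v : Fin p → E n) :
    f (fun j => frm v (e j)) = ∑ K : (ι → Fin n) × (Fin p → Bool),
      (‖z‖ ^ 2) ^ p * muK e K f * (mdC fun l => lv (qK e K l) (z, v)).re := by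
  have h1 := cx_anti f e v
  have h2 : ∀ κ : ι → Fin n, mdC (fun l => gl (Pk e κ l) z v) = ∑ τ : Fin p → Bool,
      (∏ l, if τ l then I else 1) * mdC fun l => lv (qK e (κ, τ) l) (z, v) := fun κ => by
    refine Eq.trans ?_
      (mdC_bool (fun _ b => if b then I else 1) fun l b => lv (ri b (Pk e κ l)) (z, v))
    exact congrArg mdC (funext fun l => (ic_Pe _ _).gl_bool hz v)
  have h3 : (p.factorial : ℂ) ^ 2 * (I / 2) ^ p * f (fun j => frm v (e j)) =
      ∑ κ : ι → Fin n, sN z ^ p * cx f (fun j => ty (e j)) (fun j => ev (κ j)) *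
        mdC fun l => gl (Pk e κ l) z v := by
    rw [← h1]
    simp only [h.span1 hz e (v ∘ _) (v ∘ _), mdC, mul_sum]
    rw [sum_comm (s := univ (α := ι → Fin n))]
    refine sum_congr rfl fun σ _ => ?_
    rw [sum_comm (s := univ (α := ι → Fin n))]
    exact sum_congr rfl fun π _ => sum_congr rfl fun κ _ => mul_left_comm _ _ _
  rw [← eq_inv_mul_iff_mul_eq₀ (Span_c p)] at h3
  rw [← ofReal_re (f _), h3]
  simp only [h2, mul_sum, re_sum, Fintype.sum_prod_type]
  refine sum_congr rfl fun κ _ => sum_congr rfl fun τ _ => ?_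
  have h4 := dc_eq_dn (pots_qK e (κ, τ)) (x := (z, v)) hz
  rw [dc] at h4
  rw [h4, ofReal_re, muK, ContinuousLinearMap.comp_apply, _root_.smul_apply,
    cxL_apply, reCLM_apply, ← re_ofReal_mul, ← re_mul_ofReal, sN, smul_eq_mul]
  congr 1
  push_cast
  ring

theorem Bas.ic_cx (h : Bas φ) (e : ι ≃ Fin p × Fin 2) (w : ι → E n) :
    IC fun z => sN z ^ p * cx (φ z) (fun j => ty (e j)) w := by
  refine ⟨(sN_sm.pow p).contDiffOn.mul (h.cx_sm _ _), fun c hc z hz => ?_⟩
  beta_reduce
  rw [← h.cx_inv hc hz, sN_smul, show (∏ j, cj (ty (e j)) c) = c ^ p * conj c ^ p from ?_]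
  · ring
  · rw [← prod_snd e]
    exact prod_congr rfl fun j _ => by simp [cj, ty]

/-- The coefficients are smooth functions on projective space. -/
theorem Bas.lh_muK (h : Bas φ) (e : ι ≃ Fin p × Fin 2) (K : (ι → Fin n) × (Fin p → Bool)) :
    LH 0 fun z => (‖z‖ ^ 2) ^ p * muK e K (φ z) := by
  refine ((ic_const (((p.factorial : ℂ) ^ 2 * (I / 2) ^ p)⁻¹ * ∏ l, if K.2 l then I else 1)).mul
    (h.ic_cx e fun j => ev (K.1 j))).re.congr fun z _ => ?_
  rw [muK, ContinuousLinearMap.comp_apply, _root_.smul_apply, cxL_apply, reCLM_apply,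
    ← re_ofReal_mul, sN, smul_eq_mul]
  congr 1
  push_cast
  ring

end Pool.Agent.Lib.MP_a47f92_an
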